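import Pool.Agent.U120.DK.All

/-!
# The joint law of the `3^∞`-Selmer groups of ALL the cubic twists by products of powers of `π_1, …, π_k`, the
# primes from ARBITRARY sets of `X^(2/3 + η)` primes of `ℚ(√-3)`

`K` is the field of third roots of unity, `E_D : y² + D y = x³`, for the cube-free `D = 1` modulo `3` of `𝓞 K`
whose norm is not `1` modulo `9` (the class of `MP_a3f657_nt/CubeFreeTwistsThreeInfinity`). `Sel D` is the
`3^∞`-Selmer group of `E_D` over `K`, and `killed ω D` is the kernel of the endomorphism `√-3 = 1 + 2 ω` on it.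

Let `C_1, …, C_k` be ANY finite sets of at most `s` primary primes of `𝓞 K` of norm at most `X`, for example all
equal to an arbitrary set of `X^(2/3 + η)` primes. For pairwise different `π_1 ∈ C_1, …, π_k ∈ C_k` consider ALL
the elements `D_e = ∏ π_i ^ e_i`, `e ∈ {0, 1, 2}^k`, which are in the class.

* THE JOINT LAW. The family `e ↦ #killed ω D_e` (`0` if `D_e` is not in the class) has the law of an explicit
  random family: let `a` be ONE random symmetric `k × k` matrix over the field with three elements with zero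
  diagonal; to `e` with `∑ e_i t_i ≠ 0`, where `N π_i = 1 + 3 t_i` modulo `9`, belongs a third of the number
  of the solutions of the equations `∑_i e_i a_ji (v_i - v_j) = 0` on the support of `e`. For EVERY property `Φ`
  of such families the number of the tuples with `Φ` is the sum of the probabilities of `Φ` in the model, up to
  `42 · 3^(k(k+1)/2) · √X · s^(k - 3/4)`; for `s ≥ X^(2/3 + η)` this is a power saving.
* ALL OF THEM TRIVIAL. If the norms of the elements of the `C_i` are not `1` modulo `9` and `k ≥ 2`, then for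
  exactly the proportion `2 / 3^(k(k-1)/2)` of the tuples (up to the error) the `3^∞`-Selmer groups
  and the ranks of ALL the `2 · 3^(k-1)` curves `E_D` of the family are trivial.

The dependence of a single Selmer group on the cubic residue symbols is from the starting library (`R419/KL`), also
the passage from bilinear estimates to the joint law of the symbols (`Y710/XK`). New here (`Pool/Agent/U120/DK`):
the bilinear estimate for cubic symbols of arbitrary sparse sets, the joint law, the count of the matrices for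
which all the systems are nonsingular (they are `a_ij = c t_i t_j`).
-/

set_option autoImplicit false

open scoped Classical

namespace Pool.Agent.Results.MP_a3f657_nt.JointLawAllExponents

open NumberField WeierstrassCurve
open Pool.Agent.TH841.SH.D (Pt act Gal Coch)
open Pool.Agent.TH841.NF.D (IsShaCoc shaCoc)

variable {K : Type} [Field K] [NumberField K]

/-- The curve `E_D : y² + D y = x³`. -/
def curve {K : Type} [Field K] (D : K) : WeierstrassCurve K := ⟨0, 0, D, 0, 0⟩

/-- The endomorphism `(x, y) ↦ (ω x, y)` of `E_D` for a third root of unity `ω`, on the points over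
an extension `L`. -/
noncomputable def rotation {K : Type} [Field K] (D ω : K) (L : Type) [Field L] [Algebra K L] :
    Pt (curve D) L → Pt (curve D) L
  | 0 => 0
  | .some x y _ =>
    if h : ((curve D).baseChange L).toAffine.Nonsingular (algebraMap K L ω * x) y then
      .some _ y h
    else 0

/-- The group of the continuous cocycles of the absolute Galois group of `K` with values in
`E_D[3^∞]` that are coboundaries in `E_D` at all the places of `K`. -/
def Cocycles (D : K) : AddSubgroup (Coch (curve D)) where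
  carrier := {f | IsShaCoc (curve D) f ∧ ∀ σ, ∃ n : ℕ, 3 ^ n • f σ = 0}
  zero_mem' := (Pool.Agent.Y703.XL.Inf.selCoc D).zero_mem'
  add_mem' := (Pool.Agent.Y703.XL.Inf.selCoc D).add_mem'
  neg_mem' := (Pool.Agent.Y703.XL.Inf.selCoc D).neg_mem'

/-- The group of the coboundaries of the points of `E_D[3^∞]`. -/
def Coboundaries (D : K) : AddSubgroup (Coch (curve D)) where
  carrier := {f | ∃ P : Pt (curve D) (AlgebraicClosure K), (∃ n : ℕ, 3 ^ n • P = 0) ∧
    ∀ σ : Gal K, f σ = act (curve D) σ.toAlgHom P - P}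
  zero_mem' := (Pool.Agent.Y703.XL.Inf.cobInf D).zero_mem'
  add_mem' := (Pool.Agent.Y703.XL.Inf.cobInf D).add_mem'
  neg_mem' := (Pool.Agent.Y703.XL.Inf.cobInf D).neg_mem'

/-- The `3^∞`-Selmer group of `E_D` over `K`: the kernel of
`H¹(K, E_D[3^∞]) → ∏ H¹(K_v, E_D)`. -/
def Sel (D : K) : Type := Cocycles D ⧸ (Coboundaries D).addSubgroupOf (Cocycles D)

/-- The group law of the `3^∞`-Selmer group. -/
noncomputable instance Sel.group (D : K) : AddCommGroup (Sel D) :=
  @QuotientAddGroup.Quotient.addCommGroup (Cocycles D) _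
    ((Coboundaries D).addSubgroupOf (Cocycles D))

/-- The class of a cocycle. -/
noncomputable def cls {D : K} (f : Cocycles D) : Sel D := QuotientAddGroup.mk f

/-- The kernel of the endomorphism `√-3 = 1 + 2 ω` on the `3^∞`-Selmer group: the classes of the
cocycles `f` for which `σ ↦ f σ + 2 ω (f σ)` is a coboundary. -/
def killed (ω D : K) : Set (Sel D) :=
  {x | ∃ f : Cocycles D, cls f = x ∧
    (fun σ => f.1 σ + (2 : ℕ) • rotation D ω (AlgebraicClosure K) (f.1 σ) : Coch (curve D)) ∈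
      Coboundaries D}

/-- The `3^∞`-Selmer group is trivial. -/
def Trivial (D : K) : Prop := ∀ x : Sel D, x = 0

/-- The rank of `E_D(K)` over `ℤ`. -/
noncomputable def rank (D : K) : ℕ := Module.finrank ℤ (curve D).toAffine.Point

/-- `D` is cube-free and `1` modulo `3`, and its norm is not `1` modulo `9`. -/
def InClass (D : 𝓞 K) : Prop :=
  (3 : 𝓞 K) ∣ D - 1 ∧ (∀ x : 𝓞 K, x ^ 3 ∣ D → IsUnit x) ∧ ¬ (9 : ℤ) ∣ Algebra.norm ℤ D - 1

/-- the primary primes: the prime elements `1` modulo `3` (every prime ideal prime to `3` is generated by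
exactly one of them) -/
def Primary (π : 𝓞 K) : Prop := Prime π ∧ (3 : 𝓞 K) ∣ π - 1

/-- the residue `t` modulo `3` with `N π = 1 + 3 t` modulo `9` -/
noncomputable def residue (π : 𝓞 K) : ZMod 3 := (((Algebra.norm ℤ π - 1) / 3 : ℤ) : ZMod 3)

/-- `D_e = ∏ π_i ^ e_i`, `e_i ∈ {0, 1, 2}` -/
noncomputable def prodPow {k : ℕ} (π : Fin k → 𝓞 K) (e : Fin k → ZMod 3) : 𝓞 K :=
  ∏ i, π i ^ (e i).val

/-- the family of the orders of the kernels of `√-3` on the Selmer groups of all the `D_e` of the class (`0` if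
`D_e` is not in the class) -/
noncomputable def orders (ω : K) {k : ℕ} (π : Fin k → 𝓞 K) (e : Fin k → ZMod 3) : ℕ :=
  if InClass (prodPow π e) then (killed ω (prodPow π e : K)).ncard else 0

/-- the number of the solutions `v` (on the support of `e`) of the equations
`∑_i e_i a_ji (v_i - v_j) = 0` -/
noncomputable def solutions {k : ℕ} (e : Fin k → ZMod 3) (a : Fin k → Fin k → ZMod 3) : ℕ :=
  Nat.card {v : Fin k → ZMod 3 // (∀ i, e i = 0 → v i = 0) ∧
    ∀ j, e j ≠ 0 → ∑ i, e i * a j i * (v i - v j) = 0}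

/-- the family of the model -/
noncomputable def model {k : ℕ} (t : Fin k → ZMod 3) (a : Fin k → Fin k → ZMod 3)
    (e : Fin k → ZMod 3) : ℕ :=
  if ∑ i, e i * t i ≠ 0 then solutions e a / 3 else 0

/-- the probability of the property `Φ` for a random symmetric matrix with zero diagonal -/
noncomputable def chance {k : ℕ} (Φ : ((Fin k → ZMod 3) → ℕ) → Prop) (t : Fin k → ZMod 3) : ℝ :=
  (Nat.card {a : Matrix (Fin k) (Fin k) (ZMod 3) // a.IsSymm ∧ (∀ i, a i i = 0) ∧ Φ (model t a)} : ℝ) /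
    3 ^ (k * (k - 1) / 2)

/-- the tuples of pairwise different `π_i ∈ C_i` -/
noncomputable def tuples {k : ℕ} (C : Fin k → Finset (𝓞 K)) : Finset (Fin k → 𝓞 K) :=
  (Fintype.piFinset C).filter Function.Injective

/-- the `3^∞`-Selmer groups and the ranks of ALL the `E_D`, `D = D_e` in the class, are trivial -/
def AllTrivial {k : ℕ} (π : Fin k → 𝓞 K) : Prop :=
  ∀ e : Fin k → ZMod 3, InClass (prodPow π e) →
    Trivial (prodPow π e : K) ∧ rank (prodPow π e : K) = 0

/-- the error, for sets of at most `s` primes of norm at most `X` -/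
noncomputable def error (k X s : ℕ) : ℝ :=
  42 * 3 ^ (k * (k + 1) / 2) * √(X : ℝ) * (s : ℝ) ^ k / (s : ℝ) ^ ((3 : ℝ) / 4)

section proof

open Finset
open Pool.Agent.U120.DK (F nS sy lam rs rs_eq Pm Pm_iff De arith boxK dK PF PF_eq AllT card_allT)
open Pool.Agent.Y692.QS (Ei nr)
open Pool.Agent.Y715.T.RecG (Pq)
open Pool.Agent.R419.KL (ne_zero not_cube)
open Pool.Agent.Y703.XL.Inf (sel_card sel_triv)

variable [IsCyclotomicExtension {3} ℚ K]

/-- the tuple in the ring of Eisenstein integers -/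
theorem tuple_facts (j : Ei ≃+* 𝓞 K) (hj : ∀ z : Ei, Algebra.norm ℤ (j z) = nr z) {k : ℕ}
    {π : Fin k → 𝓞 K} (hπ : ∀ i, Primary (π i)) (hi : Function.Injective π) :
    (∀ i, Pq (j.symm (π i))) ∧ (fun i => residue (π i)) = (fun i => lam (j.symm (π i))) ∧
    ∀ e, (InClass (prodPow π e) ↔ ∑ i, e i * residue (π i) ≠ 0) ∧
      (InClass (prodPow π e) → ∀ ω : K, ω ^ 2 + ω + 1 = 0 →
        3 * (killed ω (prodPow π e : K)).ncard = nS e (sy fun i => j.symm (π i))) := by
  have hp : ∀ i, Pq (j.symm (π i)) := by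
    intro i
    rw [← Pm_iff j, RingEquiv.apply_symm_apply]
    exact hπ i
  have hi' : Function.Injective fun i => j.symm (π i) := fun a b hab => hi (j.symm.injective hab)
  have e1 : ∀ i, residue (π i) = lam (j.symm (π i)) := by
    intro i
    rw [← rs_eq j hj (hp i), RingEquiv.apply_symm_apply]
    rfl
  refine ⟨hp, funext e1, fun e => ?_⟩
  obtain ⟨h2, h3⟩ := arith j hj hi' hp e
  have hD : j (De (fun i => j.symm (π i)) e) = prodPow π e := by
    unfold Pool.Agent.U120.DK.De prodPow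
    rw [map_prod]
    refine Finset.prod_congr rfl fun i _ => ?_
    rw [map_pow, RingEquiv.apply_symm_apply]
  rw [hD] at h2 h3
  refine ⟨?_, fun h ω hω => ?_⟩
  · simp only [e1]
    exact h2
  · rw [← h3 h]
    exact (sel_card (ne_zero h) hω (not_cube h)).symm

theorem orders_eq (j : Ei ≃+* 𝓞 K) (hj : ∀ z : Ei, Algebra.norm ℤ (j z) = nr z) {k : ℕ}
    {π : Fin k → 𝓞 K} (hπ : ∀ i, Primary (π i)) (hi : Function.Injective π) {ω : K}
    (hω : ω ^ 2 + ω + 1 = 0) :
    orders ω π = model (fun i => residue (π i)) (sy fun i => j.symm (π i)) := by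
  obtain ⟨-, -, h⟩ := tuple_facts j hj hπ hi
  funext e
  obtain ⟨h1, h2⟩ := h e
  unfold orders model
  by_cases hc : InClass (prodPow π e)
  · rw [if_pos hc, if_pos (h1.1 hc)]
    have h3 := h2 hc ω hω
    show _ = nS e (sy fun i => j.symm (π i)) / 3
    rw [← h3, Nat.mul_div_cancel_left _ (by norm_num)]
  · rw [if_neg hc, if_neg fun h3 => hc (h1.2 h3)]

theorem chance_PF {k : ℕ} (Φ : ((Fin k → ZMod 3) → ℕ) → Prop) (t : Fin k → ZMod 3) :
    PF (fun t a => Φ (model t a)) t = chance Φ t := PF_eq _ t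

theorem joint {ω : K} (hω : ω ^ 2 + ω + 1 = 0) {k X s : ℕ} (hk : 1 ≤ k)
    (hX : 1 ≤ X) (hs : 1 ≤ s) (C : Fin k → Finset (𝓞 K))
    (hC : ∀ i, ∀ π ∈ C i, Primary π ∧ Algebra.norm ℤ π ≤ X) (hCs : ∀ i, (C i).card ≤ s)
    (Φ : ((Fin k → ZMod 3) → ℕ) → Prop) :
    |(((tuples C).filter fun π => Φ (orders ω π)).card : ℝ) -
      ∑ π ∈ tuples C, chance Φ (fun i => residue (π i))| ≤ error k X s := by
  obtain ⟨⟨j, hj⟩, -⟩ := Pool.Agent.Y455.CTK.jex K
  have h1 := boxK j hj hk hX hs C hC hCs (fun t a => Φ (model t a))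
  refine (le_of_eq ?_).trans h1
  congr 1
  unfold tuples
  rw [← Finset.sum_boole, ← Finset.sum_sub_distrib]
  refine Finset.sum_congr rfl fun π hπ => ?_
  rw [Finset.mem_filter, Fintype.mem_piFinset] at hπ
  have hπ' : ∀ i, Primary (π i) := fun i => (hC i _ (hπ.1 i)).1
  rw [orders_eq j hj hπ' hπ.2 hω]
  unfold Pool.Agent.U120.DK.dK
  rw [← chance_PF]
  rfl

theorem allTrivial_iff (j : Ei ≃+* 𝓞 K) (hj : ∀ z : Ei, Algebra.norm ℤ (j z) = nr z) {k : ℕ}
    {π : Fin k → 𝓞 K} (hπ : ∀ i, Primary (π i)) (hi : Function.Injective π) :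
    AllTrivial π ↔ AllT (fun i => residue (π i)) (sy fun i => j.symm (π i)) := by
  obtain ⟨ω, hω⟩ : ∃ ω : K, ω ^ 2 + ω + 1 = 0 := by
    have hww : (Pool.Agent.Y692.QS.w : Pool.Agent.Y692.QS.Ei) ^ 2 + Pool.Agent.Y692.QS.w + 1 = 0 := by
      decide
    refine ⟨((j Pool.Agent.Y692.QS.w : 𝓞 K) : K), ?_⟩
    have h2 := congrArg (fun z => ((j z : 𝓞 K) : K)) hww
    simp only [map_add, map_pow, map_one, map_zero] at h2
    exact h2
  obtain ⟨-, -, h⟩ := tuple_facts j hj hπ hi
  refine forall_congr' fun e => ?_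
  obtain ⟨h1, h2⟩ := h e
  rw [← h1]
  refine imp_congr_right fun hc => ?_
  have h3 := h2 hc ω hω
  have h4 : (killed ω (prodPow π e : K)).ncard = 1 ↔ Trivial (prodPow π e : K) :=
    sel_triv (ne_zero hc) hω
  rw [← h3]
  constructor
  · rintro ⟨h5, -⟩
    rw [h4.2 h5]
  · intro h5
    have h6 : (killed ω (prodPow π e : K)).ncard = 1 := by omega
    refine ⟨h4.1 h6, ?_⟩
    obtain ⟨⟨r, hr, hr'⟩, -⟩ := Pool.Agent.R419.KL.oneK hc
    have h7 : (Pool.Agent.XL6.SelK (prodPow π e : K)).ncard =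
        3 * (killed ω (prodPow π e : K)).ncard := sel_card (ne_zero hc) hω (not_cube hc)
    rw [h6, hr] at h7
    have h8 : r = 0 := by
      by_contra hne
      have : 3 ^ 2 ≤ 3 ^ (r + 1) := Nat.pow_le_pow_right (by norm_num) (by omega)
      omega
    have h9 : rank (prodPow π e : K) ≤ 2 * r := hr'
    omega

theorem all_law {k X s : ℕ} (hk : 2 ≤ k)
    (hX : 1 ≤ X) (hs : 1 ≤ s) (C : Fin k → Finset (𝓞 K))
    (hC : ∀ i, ∀ π ∈ C i, Primary π ∧ Algebra.norm ℤ π ≤ X ∧ ¬ (9 : ℤ) ∣ Algebra.norm ℤ π - 1)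
    (hCs : ∀ i, (C i).card ≤ s) :
    |(((tuples C).filter AllTrivial).card : ℝ) - 2 / 3 ^ (k * (k - 1) / 2) * (tuples C).card| ≤
      error k X s := by
  obtain ⟨⟨j, hj⟩, -⟩ := Pool.Agent.Y455.CTK.jex K
  have h1 := boxK j hj (by omega : 1 ≤ k) hX hs C (fun i π hπ => ⟨(hC i π hπ).1, (hC i π hπ).2.1⟩) hCs
    (fun t a => AllT t a)
  refine (le_of_eq ?_).trans h1
  congr 1
  unfold tuples
  rw [← Finset.sum_boole, mul_comm, ← nsmul_eq_mul, ← Finset.sum_const, ← Finset.sum_sub_distrib]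
  refine Finset.sum_congr rfl fun π hπ => ?_
  rw [Finset.mem_filter, Fintype.mem_piFinset] at hπ
  have hπ' : ∀ i, Primary (π i) := fun i => (hC i _ (hπ.1 i)).1
  obtain ⟨hp, h2, -⟩ := tuple_facts j hj hπ' hπ.2
  have ht : ∀ i, residue (π i) ≠ 0 := by
    intro i h3
    have h4 : residue (π i) = lam (j.symm (π i)) := congrFun h2 i
    rw [h4, Pool.Agent.U120.DK.lam_ls, ← Pool.Agent.U120.DK.ls_iff (Pool.Agent.U120.DK.nrm_mod (hp i))] at h3
    refine (hC i _ (hπ.1 i)).2.2 ?_
    have h5 := hj (j.symm (π i))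
    rw [RingEquiv.apply_symm_apply, ← Pool.Agent.Y699.E.nrm_cast] at h5
    rw [h5]
    omega
  unfold Pool.Agent.U120.DK.dK
  have h3 : PF (fun t a => AllT t a) (fun i => rs (π i)) = 2 / 3 ^ (k * (k - 1) / 2) := by
    rw [PF_eq, card_allT (t := fun i => rs (π i)) hk ht]
    push_cast
    rfl
  rw [h3]
  congr 1
  have h4 := allTrivial_iff j hj hπ' hπ.2
  by_cases h5 : AllTrivial π
  · rw [if_pos h5, if_pos]
    exact h4.1 h5
  · rw [if_neg h5, if_neg]
    exact fun h6 => h5 (h4.2 h6)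

end proof

theorem rel_small {η : ℝ} {k X s : ℕ} (hX : 1 ≤ X) (h : (X : ℝ) ^ (2 / 3 + η) ≤ s) :
    error k X s ≤ 42 * 3 ^ (k * (k + 1) / 2) * (s : ℝ) ^ k / (X : ℝ) ^ (3 * η / 4) := by
  have hX0 : (0 : ℝ) < X := by exact_mod_cast hX
  have h1 : √(X : ℝ) * (X : ℝ) ^ (3 * η / 4) ≤ (s : ℝ) ^ ((3 : ℝ) / 4) := by
    have h2 : ((X : ℝ) ^ (2 / 3 + η)) ^ ((3 : ℝ) / 4) ≤ (s : ℝ) ^ ((3 : ℝ) / 4) :=
      Real.rpow_le_rpow (by positivity) h (by norm_num)
    refine le_trans (le_of_eq ?_) h2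
    rw [Real.sqrt_eq_rpow, ← Real.rpow_add hX0, ← Real.rpow_mul hX0.le]
    congr 1
    ring
  have hs0 : 0 < (s : ℝ) ^ ((3 : ℝ) / 4) := lt_of_lt_of_le (by positivity) h1
  unfold error
  rw [div_le_div_iff₀ hs0 (by positivity)]
  calc 42 * 3 ^ (k * (k + 1) / 2) * √(X : ℝ) * (s : ℝ) ^ k * (X : ℝ) ^ (3 * η / 4) =
      42 * 3 ^ (k * (k + 1) / 2) * (s : ℝ) ^ k * (√(X : ℝ) * (X : ℝ) ^ (3 * η / 4)) := by ring
    _ ≤ _ := mul_le_mul_of_nonneg_left h1 (by positivity)

theorem result (K : Type) [Field K] [NumberField K] [IsCyclotomicExtension {3} ℚ K] (ω : K)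
    (hω : ω ^ 2 + ω + 1 = 0) :
    -- the joint law
    (∀ (k X s : ℕ) (C : Fin k → Finset (𝓞 K)), 1 ≤ k → 1 ≤ X → 1 ≤ s →
      (∀ i, ∀ π ∈ C i, Primary π ∧ Algebra.norm ℤ π ≤ X) → (∀ i, (C i).card ≤ s) →
      ∀ Φ : ((Fin k → ZMod 3) → ℕ) → Prop,
        |(((tuples C).filter fun π => Φ (orders ω π)).card : ℝ) -
          ∑ π ∈ tuples C, chance Φ (fun i => residue (π i))| ≤ error k X s) ∧
    -- all the twists at once
    (∀ (k X s : ℕ) (C : Fin k → Finset (𝓞 K)), 2 ≤ k → 1 ≤ X → 1 ≤ s →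
      (∀ i, ∀ π ∈ C i, Primary π ∧ Algebra.norm ℤ π ≤ X ∧ ¬ (9 : ℤ) ∣ Algebra.norm ℤ π - 1) →
      (∀ i, (C i).card ≤ s) →
        |(((tuples C).filter AllTrivial).card : ℝ) - 2 / 3 ^ (k * (k - 1) / 2) * (tuples C).card| ≤
          error k X s) ∧
    -- the error for the sets of more than `X ^ (2/3 + η)` elements
    (∀ (η : ℝ) (k X s : ℕ), 1 ≤ X → (X : ℝ) ^ (2 / 3 + η) ≤ s →
      error k X s ≤ 42 * 3 ^ (k * (k + 1) / 2) * (s : ℝ) ^ k / (X : ℝ) ^ (3 * η / 4)) :=
  ⟨fun _ _ _ C hk hX hs hC hCs Φ => joint hω hk hX hs C hC hCs Φ,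
    fun _ _ _ C hk hX hs hC hCs => all_law hk hX hs C hC hCs,
    fun _ _ _ _ hX h => rel_small hX h⟩

end Pool.Agent.Results.MP_a3f657_nt.JointLawAllExponents
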