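import Pool.Agent.Results.MP_a3f657_nt.CubeFreeTwistsThreeInfinity
import Pool.Agent.U687.KT.SelLaw

/-!
# The `3^∞`-Selmer groups of the twists `E_{D q^f}` of every `E_D` by a prime `q`

`K` is the field of third roots of unity, `E_D : y² + D y = x³`, `Sel D` is the `3^∞`-Selmer group of
`E_D` over `K`, and `killed ω D` is the kernel of `√-3 = 1 + 2 ω` on it (definitions of
`MP_a3f657_nt/CubeFreeTwistsThreeInfinity.lean`).  There `D` runs through all the cube-free `D = 1`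
modulo `3` of norm at most `X`.  Here `D` is FIXED and arbitrary, and only one prime varies.

Let `D_1, …, D_m` be pairwise coprime, `D_s = ∏ π_k ^ e_k` with `n_s` different prime elements
`π_k = 1` modulo `3`, `e_k = 1, 2`, let `f_s = 1, 2`, and let `q = 1` modulo `3` run through the prime
elements whose norm is `1 + 3 a` modulo `9`, where `a = 0, 1, 2` is such that `N(D_s) (1 + 3 a) ^ f_s`
is not `1` modulo `9` (so that the theory applies to `D_s q^{f_s}`).  Let `A_s` be the symmetric matrix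
`(e_j χ_{jk} e_k)` over the field with three elements, `(π_k / π_j)_3 = ζ ^ χ_{jk}`, let `P_s(r)` be the
share of the diagonal matrices `Y` for which `A_s + Y` has corank `r`, and
`M_s = ∑_v [(A_s v)_k = 0 for all k with v_k = 0] 3^{-#{k : v_k ≠ 0}}`.

* For `q` not dividing `D_s` the order of `killed ω (D_s q^{f_s})` is `3 ^ r`, `r ≤ n_s`, the rank of
  the group of the points over `K` is at most `2 r`, and `r = 0` if and only if the Selmer group is zero.
* The proportion of the `q` for which the order of `killed ω (D_s q^{f_s})` is `3 ^ {r_s}` for all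
  `s` tends to `∏_s P_s(r_s)`: the Selmer groups of the prime twists of coprime `D_s` are independent,
  and the law of each is a law on `{0, …, n_s}` that depends on `A_s` only, not on `f_s` and `a`.
* The mean of the orders of `killed ω (D_s q^{f_s})` tends to `M_s`.
* For every matrix with `n` rows, `∑_r P(r) = 1`, `∑_r 3^r P(r) = M`, `(2/3)^n ≤ P(0)`, `M ≤ (5/3)^n`,
  and if `n > 0`, `P(0) ≤ 1 - (1/3) (2/3)^{n-1}` and `1 + (2/3)^n ≤ M`.  So for no `D ≠ 1`
  is the Selmer group trivial for almost all the twists, or nontrivial for almost all the twists.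

Method: the theorem on `killed` of the named file, the joint law of the cubic residue symbols of a
variable prime with respect to the given primes (the library's density theorem for the field
`K(∛π_1, …, ∛π_n, ζ_9)`), cubic reciprocity, and linear algebra over the field with three elements.
-/

set_option autoImplicit false

namespace Pool.Agent.Results.MP_a3f657_nt.PrimeTwistsThreeInfinity

open NumberField WeierstrassCurve Filter Topology Matrix
open Pool.Agent.Results.MP_a3f657_nt.CubeFreeTwistsThreeInfinity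
open scoped Classical

/-- The prime elements that are `1` modulo `3`, of norm at most `X` and `1 + 3 a` modulo `9`. -/
def Primes (K : Type) [Field K] [NumberField K] (a : ZMod 3) (X : ℕ) : Set (𝓞 K) :=
  {q : 𝓞 K | Prime q ∧ (3 : 𝓞 K) ∣ q - 1 ∧ Algebra.norm ℤ q ≤ X ∧
    Algebra.norm ℤ q % 9 = 1 + 3 * (a.val : ℤ)}

/-- The matrix of the cubic residue symbols, weighted by the exponents. -/
def symbols {n : ℕ} (e : Fin n → ZMod 3) (χ : Fin n → Fin n → ZMod 3) :
    Matrix (Fin n) (Fin n) (ZMod 3) :=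
  Matrix.of fun j k => e j * χ j k * e k

/-- The share of the diagonal matrices `Y` for which the rank of `A + Y` is `n - r`. -/
noncomputable def share {n : ℕ} (A : Matrix (Fin n) (Fin n) (ZMod 3)) (r : ℕ) : ℝ :=
  (Nat.card {y : Fin n → ZMod 3 // (A + diagonal y).rank + r = n} : ℝ) / 3 ^ n

/-- `∑_v [(A v)_k = 0 for all k with v_k = 0] 3^{-#{k : v_k ≠ 0}}`. -/
noncomputable def mean {n : ℕ} (A : Matrix (Fin n) (Fin n) (ZMod 3)) : ℝ :=
  ∑ v : Fin n → ZMod 3, if ∀ k, v k = 0 → (A *ᵥ v) k = 0 then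
    (1 / 3 : ℝ) ^ (Finset.univ.filter fun k => v k ≠ 0).card else 0

section proof

open Pool.Agent.U687.KT
open Pool.Agent.Y692.QS (Ei w nr)
open Pool.Agent.Y715.T.Rec (cs)
open Pool.Agent.Y715.T.RecG (Pq)
open Pool.Agent.Y703.CT (Dt)

variable {K : Type} [Field K] [NumberField K]

/-- the number of the solutions after the adjunction of `q` -/
noncomputable def sols {n : ℕ} (e : Fin n → ZMod 3) (χ : Fin n → Fin n → ZMod 3) (f : ZMod 3)
    (x : Fin n → ZMod 3) : ℕ :=
  Nat.card {v : Fin (n + 1) → ZMod 3 // ∀ l : Fin (n + 1), ∑ k : Fin (n + 1),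
    (Fin.cons f e : Fin (n + 1) → ZMod 3) k * ex1 χ x l k * (v k - v l) = 0}

theorem key [IsCyclotomicExtension {3} ℚ K] {ω : K} (hω : ω ^ 2 + ω + 1 = 0) (j : Ei ≃+* 𝓞 K)
    (hj : ∀ z : Ei, Algebra.norm ℤ (j z) = nr z) {D : 𝓞 K} {n : ℕ} {π : Fin n → 𝓞 K}
    {e : Fin n → ZMod 3} {χ : Fin n → Fin n → ZMod 3} (h : RF (j w) D n π e χ) {f a : ZMod 3}
    (hf : f ≠ 0) (ha : ¬ (9 : ℤ) ∣ Algebra.norm ℤ D * (1 + 3 * (a.val : ℤ)) ^ f.val - 1) {z : Ei}
    (hz : Pq z) (hne : ∀ k, j.symm (π k) ≠ z) (haz : cs z w = a) :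
    InClass (D * (j z) ^ f.val) ∧
    (∃ r ≤ n, (killed ω ((D * (j z) ^ f.val : 𝓞 K) : K)).ncard = 3 ^ r ∧
      rank ((D * (j z) ^ f.val : 𝓞 K) : K) ≤ 2 * r ∧
      (r = 0 ↔ Trivial ((D * (j z) ^ f.val : 𝓞 K) : K))) ∧
    ∀ r, (killed ω ((D * (j z) ^ f.val : 𝓞 K) : K)).ncard = 3 ^ r ↔
      sols e χ f (fun k => cs z (j.symm (π k))) = 3 ^ (r + 1) := by
  have hR := rf_cons j hj h hf hz hne
  obtain ⟨c1, c2⟩ := rf_class j hj hR
  have hq : Algebra.norm ℤ (j z) % 9 = 1 + 3 * (a.val : ℤ) := by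
    rw [hj]
    exact (norm_class hz a).2 haz
  have hC : InClass (D * (j z) ^ f.val) := ⟨c1, c2, norm_nine ha hq⟩
  have hw : (j w) ^ 2 + j w + 1 = 0 := by
    have h1 : (w : Ei) ^ 2 + w + 1 = 0 := by decide
    have h2 := congrArg j h1
    rwa [map_add, map_add, map_pow, map_one, map_zero] at h2
  obtain ⟨-, h2, -⟩ := Pool.Agent.Results.MP_a3f657_nt.CubeFreeTwistsThreeInfinity.result K ω hω
  obtain ⟨⟨r, hr1, hr2⟩, hr3, -, hr4⟩ := h2 _ hC
  have h5 := hr4 (j w) (n + 1) _ _ _ hw hR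
  have h5' : 3 * (killed ω ((D * (j z) ^ f.val : 𝓞 K) : K)).ncard =
      sols e χ f (fun k => cs z (j.symm (π k))) := h5
  obtain ⟨hdt, -, hχ⟩ := rf_data j hj h
  have hsym : ∀ k l, k ≠ l → χ k l = χ l k := by
    intro k l hkl
    rw [hχ k l hkl, hχ l k hkl.symm]
    exact (Pool.Agent.Y350.CT.rec _ _ (hdt.pq k) (hdt.pq l) (hdt.nd k l hkl)).symm
  have h6 : sols e χ f (fun k => cs z (j.symm (π k))) =
      3 * 3 ^ (n - (SM e χ + diagonal (yx e χ f (fun k => cs z (j.symm (π k))))).rank) := by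
    unfold sols
    rw [sol_card hdt.e0 hf hsym, (card_ker _).1]
  have h7 : r ≤ n := by
    rw [h6, hr1] at h5'
    have h8 := Nat.eq_of_mul_eq_mul_left (by norm_num) h5'
    have h9 := Nat.pow_right_injective (by norm_num : 2 ≤ 3) h8
    omega
  refine ⟨hC, ⟨r, h7, hr1, hr2, ?_⟩, fun s => ?_⟩
  · rw [← hr3, hr1]
    constructor
    · rintro rfl
      rfl
    · intro h
      by_contra h0
      exact absurd h (Nat.one_lt_pow h0 (by norm_num)).ne'
  · rw [← h5', pow_succ']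
    constructor
    · intro h
      rw [h]
    · intro h
      exact Nat.eq_of_mul_eq_mul_left (by norm_num) h

theorem primes_fin [IsCyclotomicExtension {3} ℚ K] (a : ZMod 3) (X : ℕ) :
    (Primes K a X).Finite := by
  obtain ⟨⟨j, hj⟩, -⟩ := Pool.Agent.Y455.CTK.jex K
  refine ((Q283.TC.fin_nr X).image j).subset ?_
  rintro q ⟨-, -, h, -⟩
  obtain ⟨z, rfl⟩ := j.surjective q
  refine ⟨z, ?_, rfl⟩
  rw [hj] at h
  exact h

/-- **the law** -/
theorem main_law [IsCyclotomicExtension {3} ℚ K] {ω : K} (hω : ω ^ 2 + ω + 1 = 0) {m : ℕ}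
    {ζ : 𝓞 K} {D : Fin m → 𝓞 K} {n : Fin m → ℕ} {π : (s : Fin m) → Fin (n s) → 𝓞 K}
    {e : (s : Fin m) → Fin (n s) → ZMod 3} {χ : (s : Fin m) → Fin (n s) → Fin (n s) → ZMod 3}
    {f : Fin m → ZMod 3} {a : ZMod 3} (hζ : ζ ^ 2 + ζ + 1 = 0)
    (hD : ∀ s, IsFact ζ (D s) (n s) (π s) (e s) (χ s))
    (hco : ∀ s t, s ≠ t → IsCoprime (D s) (D t)) (hf : ∀ s, f s ≠ 0)
    (ha : ∀ s, ¬ (9 : ℤ) ∣ Algebra.norm ℤ (D s) * (1 + 3 * (a.val : ℤ)) ^ (f s).val - 1) :
    (∀ (X : ℕ) (q : 𝓞 K), q ∈ Primes K a X → ∀ s, ¬ q ∣ D s →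
      InClass (D s * q ^ (f s).val) ∧
      ∃ r ≤ n s, (killed ω ((D s * q ^ (f s).val : 𝓞 K) : K)).ncard = 3 ^ r ∧
        rank ((D s * q ^ (f s).val : 𝓞 K) : K) ≤ 2 * r ∧
        (r = 0 ↔ Trivial ((D s * q ^ (f s).val : 𝓞 K) : K))) ∧
    ∀ (r : Fin m → ℕ) (T : 𝓞 K → Prop), (∀ q : 𝓞 K, (∀ s, ¬ q ∣ D s) → (T q ↔
        ∀ s, (killed ω ((D s * q ^ (f s).val : 𝓞 K) : K)).ncard = 3 ^ r s)) →
      Tendsto (fun X : ℕ => ({q : 𝓞 K | q ∈ Primes K a X ∧ T q}.ncard : ℝ) /
        ((Primes K a X).ncard : ℝ)) atTop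
        (𝓝 (∏ s, share (symbols (e s) (χ s)) (r s))) := by
  obtain ⟨⟨j, hj⟩, -⟩ := Pool.Agent.Y455.CTK.jex K
  obtain ⟨j, hj, rfl⟩ := exists_j j hj hζ
  have hR : ∀ s, RF (j w) (D s) (n s) (π s) (e s) (χ s) := hD
  have hdt := fun s => (rf_data j hj (hR s)).1
  have hDe := fun s => (rf_data j hj (hR s)).2.1
  -- the primes divide `D`
  have hdv : ∀ s k, j.symm (π s k) ∣ j.symm (D s) := by
    intro s k
    rw [hDe s, RingEquiv.symm_apply_apply]
    unfold Pool.Agent.Y703.CT.pD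
    refine dvd_trans (dvd_pow_self _ ?_) (Finset.dvd_prod_of_mem _ (Finset.mem_univ k))
    intro h0
    exact (hdt s).e0 k ((ZMod.val_eq_zero _).1 h0)
  have hnd : ∀ z s, (¬ j z ∣ D s) → ∀ k, j.symm (π s k) ≠ z := by
    intro z s h k hk
    apply h
    have h1 := map_dvd j (hdv s k)
    rwa [hk, RingEquiv.apply_symm_apply] at h1
  have hnd' : ∀ z, Pq z → ∀ s, (∀ k, j.symm (π s k) ≠ z) → ¬ j z ∣ D s := by
    intro z hz s h h1
    have h2 := map_dvd j.symm h1
    rw [RingEquiv.symm_apply_apply, hDe s, RingEquiv.symm_apply_apply] at h2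
    unfold Pool.Agent.Y703.CT.pD at h2
    obtain ⟨k, -, hk⟩ := (hz.prime.dvd_finsetProd_iff _).1 h2
    exact h k (eq_of_dvd hz ((hdt s).pq k) (hz.prime.dvd_of_dvd_pow hk)).symm
  refine ⟨fun X q hq s hs => ?_, fun r T hT => ?_⟩
  · obtain ⟨h1, h2, -, h4⟩ := hq
    obtain ⟨z, rfl⟩ := j.surjective q
    have hz : Pq z := by
      have := Pool.Agent.Y696.CTK.pq_symm j h1 h2
      rwa [RingEquiv.symm_apply_apply] at this
    have hk := key hω j hj (hR s) (hf s) (ha s) hz (hnd z s hs) ((norm_class hz a).1 (by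
      rw [← hj]
      exact h4))
    exact ⟨hk.1, hk.2.1⟩
  · have hinj : Function.Injective
        (fun x : (Σ s, Fin (n s)) => (fun s k => j.symm (π s k)) x.1 x.2) := by
      rintro ⟨s, k⟩ ⟨t, l⟩ h
      have h' : j.symm (π s k) = j.symm (π t l) := h
      have hst : s = t := by
        by_contra hst
        have h2 := ((hdt s).pq k).prime.not_isUnit
        apply h2
        have h3 := hdv s k
        have h4 := hdv t l
        rw [← h'] at h4
        obtain ⟨u, v, huv⟩ := hco s t hst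
        have h5 := congrArg j.symm huv
        rw [map_add, map_mul, map_mul, map_one] at h5
        rw [isUnit_iff_dvd_one, ← h5]
        exact dvd_add (h3.mul_left _) (h4.mul_left _)
      subst hst
      have hkl : k = l := by
        by_contra hkl
        exact (hdt s).nd k l hkl (by rw [h'])
      rw [hkl]
    have hlaw := law (fun s k => j.symm (π s k)) (fun s k => (hdt s).pq k) hinj a
      (fun s x => sols (e s) (χ s) (f s) x = 3 ^ (r s + 1)) (fun z => T (j z)) (by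
        intro z hz hne haz
        rw [hT (j z) (fun s => hnd' z hz s (hne s))]
        exact forall_congr' fun s => (key hω j hj (hR s) (hf s) (ha s) hz (hne s) haz).2.2 (r s))
    have hsh : ∀ s, (Nat.card {x : Fin (n s) → ZMod 3 //
        sols (e s) (χ s) (f s) x = 3 ^ (r s + 1)} : ℝ) / 3 ^ n s =
        share (symbols (e s) (χ s)) (r s) := by
      intro s
      have hsym : ∀ k l, k ≠ l → χ s k l = χ s l k := by
        intro k l hkl
        have hχ := (rf_data j hj (hR s)).2.2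
        rw [hχ k l hkl, hχ l k hkl.symm]
        exact (Pool.Agent.Y350.CT.rec _ _ ((hdt s).pq k) ((hdt s).pq l)
          ((hdt s).nd k l hkl)).symm
      unfold share
      congr 2
      exact card_sol (hdt s).e0 (hf s) hsym (r s)
    simp only [hsh] at hlaw
    refine hlaw.congr fun X => ?_
    have e0 := sets_eq' j hj a (fun _ => True) X
    simp only [and_true] at e0
    have e1 := sets_eq' j hj a T X
    rw [← e1, ← e0]
    rfl

end proof

/-- **The `3^∞`-Selmer groups of the prime twists of all the `E_D`.** -/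
theorem result (K : Type) [Field K] [NumberField K] [IsCyclotomicExtension {3} ℚ K] (ω : K)
    (hω : ω ^ 2 + ω + 1 = 0) :
    (∀ (m : ℕ) (ζ : 𝓞 K) (D : Fin m → 𝓞 K) (n : Fin m → ℕ) (π : (s : Fin m) → Fin (n s) → 𝓞 K)
      (e : (s : Fin m) → Fin (n s) → ZMod 3) (χ : (s : Fin m) → Fin (n s) → Fin (n s) → ZMod 3)
      (f : Fin m → ZMod 3) (a : ZMod 3), ζ ^ 2 + ζ + 1 = 0 →
      (∀ s, IsFact ζ (D s) (n s) (π s) (e s) (χ s)) → (∀ s t, s ≠ t → IsCoprime (D s) (D t)) →
      (∀ s, f s ≠ 0) →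
      (∀ s, ¬ (9 : ℤ) ∣ Algebra.norm ℤ (D s) * (1 + 3 * (a.val : ℤ)) ^ (f s).val - 1) →
      (∀ (X : ℕ) (q : 𝓞 K), q ∈ Primes K a X → ∀ s, ¬ q ∣ D s →
        InClass (D s * q ^ (f s).val) ∧
        ∃ r ≤ n s, (killed ω ((D s * q ^ (f s).val : 𝓞 K) : K)).ncard = 3 ^ r ∧
          rank ((D s * q ^ (f s).val : 𝓞 K) : K) ≤ 2 * r ∧
          (r = 0 ↔ Trivial ((D s * q ^ (f s).val : 𝓞 K) : K))) ∧
      (∀ r : Fin m → ℕ, Tendsto (fun X : ℕ => ({q : 𝓞 K | q ∈ Primes K a X ∧
          ∀ s, (killed ω ((D s * q ^ (f s).val : 𝓞 K) : K)).ncard = 3 ^ r s}.ncard : ℝ) /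
            ((Primes K a X).ncard : ℝ)) atTop
        (𝓝 (∏ s, share (symbols (e s) (χ s)) (r s)))) ∧
      (∀ s, Tendsto (fun X : ℕ => (∑ᶠ q ∈ {q : 𝓞 K | q ∈ Primes K a X ∧ ¬ q ∣ D s},
          ((killed ω ((D s * q ^ (f s).val : 𝓞 K) : K)).ncard : ℝ)) / ((Primes K a X).ncard : ℝ))
        atTop (𝓝 (mean (symbols (e s) (χ s)))))) ∧
    (∀ (n : ℕ) (A : Matrix (Fin n) (Fin n) (ZMod 3)),
      ∑ r ∈ Finset.range (n + 1), share A r = 1 ∧
      ∑ r ∈ Finset.range (n + 1), (3 : ℝ) ^ r * share A r = mean A ∧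
      (2 / 3 : ℝ) ^ n ≤ share A 0 ∧ mean A ≤ (5 / 3 : ℝ) ^ n ∧
      (0 < n → share A 0 ≤ 1 - (1 / 3) * (2 / 3 : ℝ) ^ (n - 1) ∧
        1 + (2 / 3 : ℝ) ^ n ≤ mean A)) := by
  constructor
  · intro m ζ D n π e χ f a hζ hD hco hf ha
    obtain ⟨h1, h2⟩ := main_law hω hζ hD hco hf ha
    refine ⟨h1, fun r => h2 r _ fun q _ => Iff.rfl, fun s => ?_⟩
    -- the mean
    obtain ⟨-, h3⟩ := main_law (m := 1) (D := fun _ => D s) (n := fun _ => n s) (π := fun _ => π s)
      (e := fun _ => e s) (χ := fun _ => χ s) (f := fun _ => f s) hω hζ (fun _ => hD s)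
      (fun u t h => absurd (Subsingleton.elim u t) h) (fun _ => hf s) (fun _ => ha s)
    have h4 : ∀ r : ℕ, Tendsto (fun X : ℕ => ({q : 𝓞 K | q ∈ Primes K a X ∧ (¬ q ∣ D s ∧
        (killed ω ((D s * q ^ (f s).val : 𝓞 K) : K)).ncard = 3 ^ r)}.ncard : ℝ) /
        ((Primes K a X).ncard : ℝ)) atTop (𝓝 (share (symbols (e s) (χ s)) r)) := by
      intro r
      have h5 := h3 (fun _ => r) (fun q => ¬ q ∣ D s ∧
        (killed ω ((D s * q ^ (f s).val : 𝓞 K) : K)).ncard = 3 ^ r) (fun q hq => by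
          constructor
          · intro h _
            exact h.2
          · intro h
            exact ⟨hq 0, h 0⟩)
      simpa using h5
    have h5 : Tendsto (fun X : ℕ => ∑ r ∈ Finset.range (n s + 1), (3 : ℝ) ^ r *
        (({q : 𝓞 K | q ∈ Primes K a X ∧ (¬ q ∣ D s ∧
        (killed ω ((D s * q ^ (f s).val : 𝓞 K) : K)).ncard = 3 ^ r)}.ncard : ℝ) /
        ((Primes K a X).ncard : ℝ))) atTop (𝓝 (mean (symbols (e s) (χ s)))) := by
      have h6 := tendsto_finsetSum (Finset.range (n s + 1)) (fun r _ =>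
        (h4 r).const_mul ((3 : ℝ) ^ r))
      have h7 : ∑ r ∈ Finset.range (n s + 1), (3 : ℝ) ^ r * share (symbols (e s) (χ s)) r =
          mean (symbols (e s) (χ s)) := Pool.Agent.U687.KT.sum_three _
      rw [h7] at h6
      exact h6
    refine h5.congr fun X => ?_
    have hfin : {q : 𝓞 K | q ∈ Primes K a X ∧ ¬ q ∣ D s}.Finite := (primes_fin a X).subset fun q hq => hq.1
    rw [finsum_mem_eq_finite_toFinset_sum _ hfin, Finset.sum_div]
    have h8 : ∀ q ∈ hfin.toFinset, ((killed ω ((D s * q ^ (f s).val : 𝓞 K) : K)).ncard : ℝ) /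
        ((Primes K a X).ncard : ℝ) = ∑ r ∈ Finset.range (n s + 1),
          if (killed ω ((D s * q ^ (f s).val : 𝓞 K) : K)).ncard = 3 ^ r then
            (3 : ℝ) ^ r / ((Primes K a X).ncard : ℝ) else 0 := by
      intro q hq
      have hq' := hfin.mem_toFinset.1 hq
      obtain ⟨-, r, hr, hr1, -⟩ := h1 X q hq'.1 s hq'.2
      rw [Finset.sum_eq_single r]
      · rw [if_pos hr1, hr1]
        push_cast
        rfl
      · intro r' _ hne
        rw [if_neg]
        intro h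
        rw [hr1] at h
        exact hne (Nat.pow_right_injective (by norm_num : 2 ≤ 3) h).symm
      · intro h
        exact absurd (Finset.mem_range.2 (by omega)) h
    rw [Finset.sum_congr rfl h8, Finset.sum_comm]
    refine Finset.sum_congr rfl fun r _ => ?_
    rw [← Finset.sum_filter, Finset.sum_const, nsmul_eq_mul]
    have h9 : {q : 𝓞 K | q ∈ Primes K a X ∧ (¬ q ∣ D s ∧
        (killed ω ((D s * q ^ (f s).val : 𝓞 K) : K)).ncard = 3 ^ r)}.ncard =
        (hfin.toFinset.filter fun q =>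
          (killed ω ((D s * q ^ (f s).val : 𝓞 K) : K)).ncard = 3 ^ r).card := by
      rw [← Set.ncard_coe_finset]
      congr 1
      ext q
      simp only [Finset.coe_filter, Set.Finite.mem_toFinset, Set.mem_ofPred_eq]
      exact and_assoc.symm
    rw [h9]
    ring
  · intro n A
    refine ⟨Pool.Agent.U687.KT.sum_shr_one A, Pool.Agent.U687.KT.sum_three A,
      Pool.Agent.U687.KT.shr_zero_ge A, Pool.Agent.U687.KT.mn_le A, fun hn => ?_⟩
    obtain ⟨n, rfl⟩ : ∃ k, n = k + 1 := ⟨n - 1, by omega⟩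
    exact ⟨Pool.Agent.U687.KT.shr_zero_le A, Pool.Agent.U687.KT.mn_ge A⟩

end Pool.Agent.Results.MP_a3f657_nt.PrimeTwistsThreeInfinity
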