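import Mathlib
import Pool.Agent.U376.GR.Sel

/-!
# The `2^∞`-Selmer groups over the prime parameters of one-parameter families

Let `A, B, D` be polynomials with integer coefficients of any degrees, `D ≠ 0`, such that
`A B (A - B)` is squarefree over `ℚ` and every irreducible factor over `ℚ` of `A B (A - B)` divides
`D` to an even power. Let `E_t : y² = x (x - A(t) D(t)) (x - B(t) D(t))` over `ℚ`, and let `S` be
one of the following sets of positive integers `t ≤ N` with `E_t` nonsingular: the primes, or, for a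
polynomial `G` squarefree over `ℚ` with `m ≥ 1` irreducible factors and `δ > 0`, the `t` for which
`G(t)` has no prime factor `≤ N ^ δ`. All layers of the exact sequence
`0 → E_t(ℚ) ⊗ ℚ₂/ℤ₂ → Sel_{2^∞}(E_t) → Ш(E_t)[2^∞] → 0` are small on average over `S`: for all `k`
and `r` the `r`-th moment of `2 ^ (k rank) * #Ш(E_t)[2 ^ k]` (which is the order of the `2 ^ k`-Selmer
group divided by the order of `E_t(ℚ)[2 ^ k]`) is bounded by `C (1 + log N) ^ kap (k r)` times the
expected order of the cardinality of `S`, and the `t` for which the corank of the `2^∞`-Selmer group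
is at least `R` are rare: their proportion is at most `C (1 + log N) ^ (kap r) / 2 ^ (r R)`. The
exponent `kap` is `0` for constant `A`, `B`, that is, for the quadratic twists of one curve by the
values of a polynomial `D` at the primes.
-/

set_option autoImplicit false

namespace Pool.Agent.Results.MP_a3f657_nt.TwoInfinityAtPrimes

open Finset Polynomial
open Pool.Agent.TH841.SH.D (ShaTor HasDiv rk)

/-- the curve `y² = x (x - a) (x - b)` over `ℚ` -/
def E (a b : ℤ) : WeierstrassCurve ℚ := ⟨0, -((a : ℚ) + b), 0, (a : ℚ) * b, 0⟩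

/-- `2 ^ (k rank) * #Ш[2 ^ k]` for the elliptic curve `W` over `ℚ` (`ShaTor W n` are the elements of
the Tate-Shafarevich group killed by `n`, `rk W` is the rank of the group of the rational points) -/
noncomputable def M (k : ℕ) (W : WeierstrassCurve ℚ) : ℕ :=
  2 ^ (k * rk W) * Nat.card (ShaTor W (2 ^ k))

/-- the corank of the `2^∞`-Selmer group is at least `R`: the Tate-Shafarevich group has a subgroup
isomorphic to `(ℚ₂/ℤ₂) ^ δ` with `rank + δ ≥ R` -/
def CorankGe (R : ℕ) (W : WeierstrassCurve ℚ) : Prop := ∃ δ : ℕ, HasDiv W δ ∧ R ≤ rk W + δ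

/-- `f` as a polynomial over `ℚ` -/
noncomputable def q (f : ℤ[X]) : ℚ[X] := f.map (Int.castRingHom ℚ)

/-- the number of the irreducible factors of `f` over `ℚ` -/
noncomputable def m (f : ℤ[X]) : ℕ := (UniqueFactorizationMonoid.normalizedFactors (q f)).card

open Classical in
/-- the number of the irreducible factors of `f` over `ℚ` which do not divide `G` -/
noncomputable def n (G f : ℤ[X]) : ℕ :=
  ((UniqueFactorizationMonoid.normalizedFactors (q f)).filter (fun P => ¬ P ∣ q G)).card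

/-- the exponent: the largest of `0` and the three numbers
`(2 ^ r - 1) * (n F - (n F' + n F'') / 2 ^ r)`, `{F, F', F''} = {A, B, A - B}`, `n = n G` -/
noncomputable def kap (r : ℕ) (G A B : ℤ[X]) : ℝ :=
  max 0 (max (((2 : ℝ) ^ r - 1) * (n G A - ((n G B : ℝ) + n G (A - B)) / 2 ^ r))
    (max (((2 : ℝ) ^ r - 1) * (n G B - ((n G A : ℝ) + n G (A - B)) / 2 ^ r))
      (((2 : ℝ) ^ r - 1) * (n G (A - B) - ((n G A : ℝ) + n G B) / 2 ^ r))))

/-- the curve `y² = x (x - A(t) D(t)) (x - B(t) D(t))` -/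
noncomputable def Et (A B D : ℤ[X]) (t : ℕ) : WeierstrassCurve ℚ :=
  E (A.eval (t : ℤ) * D.eval (t : ℤ)) (B.eval (t : ℤ) * D.eval (t : ℤ))

open Classical in
/-- the primes `p ≤ N` with nonsingular `E_p` -/
noncomputable def primesTo (A B D : ℤ[X]) (N : ℕ) : Finset ℕ :=
  (Icc 1 N).filter (fun p : ℕ => p.Prime ∧ (A * B * (A - B) * D).eval (p : ℤ) ≠ 0)

open Classical in
/-- the positive integers `t ≤ N` with nonsingular `E_t` such that no prime `p ≤ N ^ δ` divides
`G(t)` -/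
noncomputable def siftedTo (A B D G : ℤ[X]) (δ : ℝ) (N : ℕ) : Finset ℕ :=
  (Icc 1 N).filter (fun t : ℕ => (A * B * (A - B) * D).eval (t : ℤ) ≠ 0 ∧
    ∀ p : ℕ, p.Prime → (p : ℝ) ≤ (N : ℝ) ^ δ → ¬ (p : ℤ) ∣ G.eval (t : ℤ))

lemma hex (r : ℕ) (G A B : ℤ[X]) : Pool.Agent.U376.GR.ExG A B G r (kap r G A B) :=
  ⟨le_max_left _ _, (le_max_left _ _).trans (le_max_right _ _),
    (le_max_left _ _).trans ((le_max_right _ _).trans (le_max_right _ _)),
    (le_max_right _ _).trans ((le_max_right _ _).trans (le_max_right _ _))⟩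

lemma fin2 {A B D : ℤ[X]} {t : ℕ} (ht : (A * B * (A - B) * D).eval (t : ℤ) ≠ 0) :
    Finite (ShaTor (Et A B D t) 2) := by
  rw [eval_mul, eval_mul, eval_mul, eval_sub] at ht
  have hd := right_ne_zero_of_mul ht
  have h1 := left_ne_zero_of_mul ht
  have hab := right_ne_zero_of_mul h1
  have h2 := left_ne_zero_of_mul h1
  exact Pool.Agent.U409.SH.fin_tor (Pool.Agent.U409.SH.fin2 _ _
    (mul_ne_zero (left_ne_zero_of_mul h2) hd) (mul_ne_zero (right_ne_zero_of_mul h2) hd)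
    (fun h => hab (by rw [mul_right_cancel₀ hd h, sub_self])))

lemma hM (a b : ℤ) : (Pool.Agent.U409.SH.qq a b : ℝ) = (M 1 (E a b) : ℝ) := by
  rw [Pool.Agent.U409.SH.qq_eq]
  have h1 : M 1 (E a b) = Pool.Agent.U409.SH.Mn (E a b) := by
    unfold M Pool.Agent.U409.SH.Mn
    rw [one_mul, pow_one]
  rw [h1]
  exact congrArg (fun x : ℕ => (x : ℝ)) (Pool.Agent.U409.SH.Mn_eq _).symm

/-- from the moments for `k = 1` to all `k` and to the coranks -/
lemma conv {A B D : ℤ[X]} {S : Finset ℕ}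
    (hS : ∀ t ∈ S, (A * B * (A - B) * D).eval (t : ℤ) ≠ 0) (k r : ℕ) {b : ℝ}
    (h : ∑ t ∈ S, (M 1 (Et A B D t) : ℝ) ^ (k * r) ≤ b) :
    ∑ t ∈ S, (M k (Et A B D t) : ℝ) ^ r ≤ b := by
  refine (sum_le_sum fun t ht => ?_).trans h
  have h1 : M k (Et A B D t) ≤ (M 1 (Et A B D t)) ^ k :=
    (Pool.Agent.U376.GR.Mk_le k _ (fin2 (hS t ht))).2
  have h2 : (M k (Et A B D t) : ℝ) ≤ (M 1 (Et A B D t) : ℝ) ^ k := by exact_mod_cast h1
  rw [pow_mul]
  exact pow_le_pow_left₀ (Nat.cast_nonneg _) h2 r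

open Classical in
lemma tail {A B D : ℤ[X]} {S : Finset ℕ}
    (hS : ∀ t ∈ S, (A * B * (A - B) * D).eval (t : ℤ) ≠ 0) {r : ℕ} {C b : ℝ}
    (h : ∑ t ∈ S, (M 1 (Et A B D t) : ℝ) ^ r ≤ C * b) (R : ℕ) :
    ((S.filter (fun t => CorankGe R (Et A B D t))).card : ℝ) ≤ C / 2 ^ (r * R) * b := by
  rw [div_mul_eq_mul_div, le_div_iff₀ (by positivity)]
  refine le_trans ?_ h
  rw [← nsmul_eq_mul, ← sum_const]
  refine (sum_le_sum fun t ht => ?_).trans (sum_le_sum_of_subset_of_nonneg (filter_subset _ _)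
    fun t _ _ => by positivity)
  obtain ⟨ht, δ, hδ, hR⟩ := mem_filter.1 ht
  have h1 := Pool.Agent.U376.GR.div_card hδ (fin2 (hS t ht))
  have h2 : 2 ^ R ≤ M 1 (Et A B D t) := by
    unfold M
    rw [one_mul, pow_one]
    calc 2 ^ R ≤ 2 ^ (rk (Et A B D t) + δ) := Nat.pow_le_pow_right (by norm_num) hR
      _ = 2 ^ rk (Et A B D t) * 2 ^ δ := pow_add _ _ _
      _ ≤ _ := Nat.mul_le_mul_left _ h1
  have h3 : (2 : ℝ) ^ R ≤ (M 1 (Et A B D t) : ℝ) := by exact_mod_cast h2
  rw [mul_comm r R, pow_mul]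
  exact pow_le_pow_left₀ (by positivity) h3 r

open Classical in
/-- The moments of the layers of the `2^∞`-Selmer groups and the tail of their coranks, over the
primes and over the sifted parameters. -/
theorem result (A B D : ℤ[X]) (hD : D ≠ 0) (hS : Squarefree (q (A * B * (A - B))))
    (hev : ∀ P : ℚ[X], Irreducible P → P ∣ q (A * B * (A - B)) → Even (multiplicity P (q D)))
    (r : ℕ) :
    (∀ (k t : ℕ), (A * B * (A - B) * D).eval (t : ℤ) ≠ 0 →
      Finite (ShaTor (Et A B D t) (2 ^ k))) ∧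
    (∀ k : ℕ, ∃ C : ℝ, ∀ N : ℕ, 2 ≤ N →
      ∑ p ∈ primesTo A B D N, (M k (Et A B D p) : ℝ) ^ r ≤
        C * (Nat.primeCounting N * (1 + Real.log N) ^ kap (k * r) X A B)) ∧
    (∃ C : ℝ, ∀ N : ℕ, 2 ≤ N → ∀ R : ℕ,
      (((primesTo A B D N).filter (fun p => CorankGe R (Et A B D p))).card : ℝ) ≤
        C / 2 ^ (r * R) * (Nat.primeCounting N * (1 + Real.log N) ^ kap r X A B)) ∧
    ∀ G : ℤ[X], 0 < G.natDegree → Squarefree (q G) → ∀ δ : ℝ, 0 < δ →
      (∀ k : ℕ, ∃ C : ℝ, ∀ N : ℕ, 2 ≤ N →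
        ∑ t ∈ siftedTo A B D G δ N, (M k (Et A B D t) : ℝ) ^ r ≤
          C * (N * (1 + Real.log N) ^ (kap (k * r) G A B - m G))) ∧
      ∃ C : ℝ, ∀ N : ℕ, 2 ≤ N → ∀ R : ℕ,
        (((siftedTo A B D G δ N).filter (fun t => CorankGe R (Et A B D t))).card : ℝ) ≤
          C / 2 ^ (r * R) * (N * (1 + Real.log N) ^ (kap r G A B - m G)) := by
  have hP : ∀ s : ℕ, ∃ C : ℝ, ∀ N : ℕ, 2 ≤ N →
      ∑ p ∈ primesTo A B D N, (M 1 (Et A B D p) : ℝ) ^ s ≤
        C * (Nat.primeCounting N * (1 + Real.log N) ^ kap s X A B) := by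
    intro s
    obtain ⟨C, _, hC⟩ := Pool.Agent.U376.GR.prime_P Pool.Agent.U214.GT.qq_QL hD hS hev
      (hex s X A B)
    refine ⟨C, fun N hN => ?_⟩
    have h := hC N hN
    simp only [hM] at h
    refine le_trans ?_ h
    refine sum_le_sum_of_subset_of_nonneg ?_ fun t _ _ => by positivity
    intro p hp
    unfold primesTo at hp
    rw [mem_filter] at hp ⊢
    exact ⟨hp.1, hp.2.1⟩
  have hT : ∀ G : ℤ[X], Squarefree (q G) → ∀ δ : ℝ, 0 < δ → ∀ s : ℕ, ∃ C : ℝ, ∀ N : ℕ, 2 ≤ N →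
      ∑ t ∈ siftedTo A B D G δ N, (M 1 (Et A B D t) : ℝ) ^ s ≤
        C * (N * (1 + Real.log N) ^ (kap s G A B - m G)) := by
    intro G hG δ hδ s
    obtain ⟨C, _, hC⟩ := Pool.Agent.U376.GR.fam_P Pool.Agent.U214.GT.qq_QL hD hG hS hev
      (hex s G A B) hδ
    refine ⟨C, fun N hN => ?_⟩
    have h1 := hC N (by omega)
    have hl : 0 ≤ Real.log N := Real.log_natCast_nonneg N
    have e : Pool.Agent.U376.GR.bd G (kap s G A B) N =
        N * (1 + Real.log N) ^ (kap s G A B - m G) := by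
      unfold Pool.Agent.U376.GR.bd
      rw [Real.rpow_sub (by linarith), Real.rpow_natCast]
      show _ / _ * _ = _ * (_ / (1 + Real.log N) ^ (Pool.Agent.U214.GT.nf G))
      ring
    rw [e] at h1
    simp only [hM] at h1
    refine le_trans ?_ h1
    refine sum_le_sum_of_subset_of_nonneg ?_ fun t _ _ => by positivity
    intro t ht
    unfold siftedTo at ht
    unfold Pool.Agent.U376.GR.RG
    rw [mem_filter] at ht ⊢
    exact ⟨ht.1, ht.2.2⟩
  have hnP : ∀ N, ∀ p ∈ primesTo A B D N, (A * B * (A - B) * D).eval (p : ℤ) ≠ 0 := by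
    intro N p hp
    unfold primesTo at hp
    exact (mem_filter.1 hp).2.2
  have hnT : ∀ G δ N, ∀ t ∈ siftedTo A B D G δ N, (A * B * (A - B) * D).eval (t : ℤ) ≠ 0 := by
    intro G δ N t ht
    unfold siftedTo at ht
    exact (mem_filter.1 ht).2.1
  refine ⟨fun k t ht => (Pool.Agent.U376.GR.Mk_le k _ (fin2 ht)).1, fun k => ?_, ?_,
    fun G _ hG δ hδ => ⟨fun k => ?_, ?_⟩⟩
  · obtain ⟨C, hC⟩ := hP (k * r)
    exact ⟨C, fun N hN => conv (hnP N) k r (hC N hN)⟩
  · obtain ⟨C, hC⟩ := hP r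
    exact ⟨C, fun N hN R => tail (hnP N) (hC N hN) R⟩
  · obtain ⟨C, hC⟩ := hT G hG δ hδ (k * r)
    exact ⟨C, fun N hN => conv (hnT G δ N) k r (hC N hN)⟩
  · obtain ⟨C, hC⟩ := hT G hG δ hδ r
    exact ⟨C, fun N hN R => tail (hnT G δ N) (hC N hN) R⟩

end Pool.Agent.Results.MP_a3f657_nt.TwoInfinityAtPrimes
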