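import Mathlib
import Pool.Agent.U115.GE.DensK
import Pool.Agent.U115.GE.Conv2
import Pool.Agent.U115.GE.Ex

/-!
# The tails of the `2^∞`-Selmer group in the twist families of the curves with a 2-isogeny

`E_D : y² = x³ + a D x² + b D² x` is the quadratic twist by `D` of `E : y² = x³ + a x² + b x`, for arbitrary
integers `a`, `b` such that neither `b` nor `a² - 4 b` is a square. The order of
`Sel_{2^∞}(E_D/ℚ)[2]` is `selTwo D = 2 ^ rank · #Ш(E_D/ℚ)[2]`.

A prime is split if it is `1` modulo `8` and a nonzero square modulo all the odd primes dividing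
`b (a² - 4 b)`, and inert if it is odd and neither `b` nor `a² - 4 b` is a square modulo it. The class: the
products `D` of different split and inert primes, any number of each, with `D = 1` modulo `8` and `D` a
square modulo all the odd primes dividing `b (a² - 4 b)`. `k D` is the dimension of the kernel of an explicit
symmetric matrix over the field with two elements (quadratic residue symbols between the prime factors
of `D`, and the quadratic character of the roots of `x² + a x + b` on the diagonal).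

* For all the `D` of the class: `2 ^ k ≤ selTwo D ≤ 4 ^ k A`, where `4 A` is the product of the orders of the
  Selmer groups of the two isogenies of degree two of `E` itself.
* So the whole group `Sel_{2^∞}(E_D)[2]` has tails of the same shape `2 ^ (- j² O(1))` as in the model:
  for every `j` the lower proportion of the `D` with `selTwo D ≥ 2 ^ j` is at least
  `tail j ≥ c_0 2^{-j(j+1)/2}`, and the upper proportion of the `D` with `selTwo D > 4 ^ j A` is at most
  `tail (j + 1) ≤ 2^{-j(j+1)/2}`. Here `tail j` is the probability that the kernel of a random symmetric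
  matrix over the field with two elements has dimension at least `j`.
In particular each curve of the class of curves has a positive proportion (in its class of twists) with
`Sel_{2^∞}(E_D)[2]` larger than any given bound, and the proportion decreases faster than exponentially.

The lower bound for `2 ^ rank · #Ш[2]` (no hypothesis on the finiteness of `E_D(ℚ)`) is a 2-descent: the
classes of the kernel give different elements of the full 2-Selmer group.

Authors: helper115 (plan, descent, statements), helper171 (the lower bound for `2 ^ rank · #Ш[2]`),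
helper295, helper439, helper2, helper643, helper674, helper234, helper158, helper998, helper798, helper756,
helper79, helper958, helper388 (the law of the coranks of the matrices for a general modulus),
helper796 (the upper bound by the Selmer groups), helper739 (good primes).
-/

set_option autoImplicit false

open scoped Classical

namespace Pool.Agent.Results.MP_a3f657_nt.TwoPrimaryTails

open Pool.Agent.TH841.NF.D (Sha rk)

/-- `y² = x³ + a D x² + b D² x` -/
def E (a b : ℤ) (D : ℕ) : WeierstrassCurve ℚ := ⟨0, (a : ℚ) * (D : ℚ), 0, (b : ℚ) * (D : ℚ) ^ 2, 0⟩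

/-- the quartic of `d` has a nontrivial point over `K` -/
def Quartic (K : Type) [Field K] (a b d : ℤ) : Prop :=
  ∃ N M e : K, (M ≠ 0 ∨ e ≠ 0) ∧
    N ^ 2 = (d : K) * M ^ 4 + (a : K) * M ^ 2 * e ^ 2 + (b : K) / (d : K) * e ^ 4

/-- the Selmer group of the isogeny of degree two of `y² = x³ + a x² + b x` -/
def Sel (a b : ℤ) : Set ℤ :=
  {d | Squarefree d ∧ Quartic ℝ a b d ∧ ∀ (p : ℕ) [Fact p.Prime], Quartic ℚ_[p] a b d}

/-- `n` is `1` modulo `8` and a nonzero square modulo the odd primes dividing `b (a² - 4 b)` -/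
def Res (a b : ℤ) (n : ℕ) : Prop := n % 8 = 1 ∧ ∀ l : ℕ, l.Prime → l ≠ 2 →
  (l : ℤ) ∣ b * (a ^ 2 - 4 * b) → ¬ l ∣ n ∧ IsSquare (n : ZMod l)

/-- the inert primes -/
def Inert (a b : ℤ) (q : ℕ) : Prop := q ≠ 2 ∧ ¬ IsSquare (b : ZMod q) ∧
  ¬ IsSquare ((a ^ 2 - 4 * b : ℤ) : ZMod q)

/-- the class of the numbers `D` -/
def Class (a b : ℤ) (D : ℕ) : Prop := Squarefree D ∧ Res a b D ∧
  ∀ p ∈ D.primeFactors, Res a b p ∨ Inert a b p

/-- the split prime factors of `D` -/
noncomputable def split (a b : ℤ) (D : ℕ) : Finset ℕ := D.primeFactors.filter fun p => Res a b p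

/-- `1` if `m` is not a square modulo `p`, and `0` if it is -/
noncomputable def nonsq (p m : ℕ) : ZMod 2 := if IsSquare (m : ZMod p) then 0 else 1

/-- `1` if no root of `x² + a x + b` modulo `p` is a square modulo `p`, and `0` otherwise -/
noncomputable def theta (a b : ℤ) (p : ℕ) : ZMod 2 :=
  if ∀ x : ZMod p, x ^ 2 + (a : ZMod p) * x + (b : ZMod p) = 0 → ¬ IsSquare x then 1 else 0

/-- The matrix over the field with two elements, with rows and columns indexed by the split prime
factors of `D`: the entry at `(i, j)` is `nonsq i j` for `i ≠ j`, and the entry at `(i, i)` is the sum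
of `theta i` and of the `nonsq i l` for all the prime factors `l ≠ i` of `D`. -/
noncomputable def mat (a b : ℤ) (D : ℕ) : Matrix (split a b D) (split a b D) (ZMod 2) :=
  Matrix.of fun i j =>
    if i = j then theta a b i + ∑ l ∈ D.primeFactors.erase i, nonsq i l else nonsq i j

/-- the dimension of the kernel of the matrix -/
noncomputable def k (a b : ℤ) (D : ℕ) : ℕ := (split a b D).card - (mat a b D).rank

/-- the number of the elements of `Ш(E_D/ℚ)[2]` -/
noncomputable def shaTwo (a b : ℤ) (D : ℕ) : ℕ := Nat.card {x : Sha (E a b D) // 2 • x = 0}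

/-- the order of `Sel_{2^∞}(E_D/ℚ)[2]` -/
noncomputable def selTwo (a b : ℤ) (D : ℕ) : ℕ := 2 ^ rk (E a b D) * shaTwo a b D

/-- the product of the orders of the two Selmer groups of the isogenies of degree two of `E` -/
noncomputable def sels (a b : ℤ) : ℕ := (Sel a b).ncard * (Sel (-2 * a) (a ^ 2 - 4 * b)).ncard

/-- the number of the `D ≤ X` of the class with the property `P` -/
noncomputable def num (a b : ℤ) (P : ℕ → Prop) (X : ℕ) : ℕ :=
  ((Finset.Icc 1 X).filter fun D => Class a b D ∧ P D).card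

/-- the proportion of the `D` of the class with the property `P` tends to `γ` -/
def Proportion (a b : ℤ) (P : ℕ → Prop) (γ : ℝ) : Prop :=
  Filter.Tendsto (fun X : ℕ => (num a b P X : ℝ) / (num a b (fun _ => True) X : ℝ)) Filter.atTop
    (nhds γ)

/-- the probability that the kernel of a large random symmetric matrix has dimension `j` -/
noncomputable def c (j : ℕ) : ℝ :=
  (∏' i : ℕ, (1 - (1 / 2 : ℝ) ^ (2 * i + 1))) / ∏ i ∈ Finset.range j, ((2 : ℝ) ^ (i + 1) - 1)

/-- the probability that this dimension is at least `j` -/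
noncomputable def tail (j : ℕ) : ℝ := 1 - ∑ i ∈ Finset.range j, c i

section proof

theorem class_iff (a b : ℤ) (D : ℕ) : Class a b D ↔ Pool.Agent.U115.GE.Class a b D := by
  refine and_congr_right fun _ => and_congr_right fun _ => forall₂_congr fun p hp => ?_
  have hpp := Nat.prime_of_mem_primeFactors hp
  exact or_congr ⟨fun h => ⟨hpp, h⟩, fun h => h.2⟩ ⟨fun h => ⟨hpp, h⟩, fun h => h.2⟩

theorem theta_eq (a b : ℤ) (p : ℕ) : theta a b p = Pool.Agent.U115.GE.thetaG a b p := by
  unfold theta Pool.Agent.U115.GE.thetaG Pool.Agent.U115.GE.RtG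
  simp only [Nat.cast_one, mul_one, one_pow]

theorem mat_eq (a b : ℤ) (D : ℕ) : mat a b D = Pool.Agent.U115.GE.mat a b D := by
  ext i j
  have hL : mat a b D i j = if i = j then theta a b i + ∑ l ∈ D.primeFactors.erase i, nonsq i l
    else nonsq i j := rfl
  have hR : Pool.Agent.U115.GE.mat a b D i j =
      if (i : ℕ) = j then Pool.Agent.U115.GE.thetaG a b i +
        ∑ q ∈ Pool.Agent.U115.GE.ine a b D, Pool.Agent.Y698.SG.nq i q +
        ∑ p ∈ (Pool.Agent.U115.GE.spl a b D).erase i, Pool.Agent.Y698.SG.nq i p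
      else Pool.Agent.Y698.SG.nq i j := rfl
  rw [hL, hR]
  by_cases hij : i = j
  · rw [if_pos hij, if_pos (congrArg Subtype.val hij), theta_eq]
    have h1 : D.primeFactors.erase i =
        Pool.Agent.U115.GE.ine a b D ∪ (Pool.Agent.U115.GE.spl a b D).erase i := by
      have h2 : D.primeFactors = Pool.Agent.U115.GE.ine a b D ∪ Pool.Agent.U115.GE.spl a b D := by
        unfold Pool.Agent.U115.GE.ine Pool.Agent.U115.GE.spl
        rw [Finset.union_comm]
        exact (Finset.filter_union_filter_not_eq _ _).symm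
      conv_lhs => rw [h2]
      rw [Finset.erase_union_distrib, Finset.erase_eq_of_notMem
        (fun h => Finset.disjoint_left.1 (Pool.Agent.U115.GE.spl_ine a b D) h i.2)]
    rw [h1, Finset.sum_union (Finset.disjoint_of_subset_right (Finset.erase_subset _ _)
      (Pool.Agent.U115.GE.spl_ine a b D)), ← add_assoc]
    rfl
  · rw [if_neg hij, if_neg (fun h => hij (Subtype.ext h))]
    rfl

theorem k_eq (a b : ℤ) (D : ℕ) : k a b D = Pool.Agent.U115.GE.cork a b D := by
  unfold k Pool.Agent.U115.GE.cork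
  rw [mat_eq]
  rfl

theorem fac_ge (j : ℕ) : (2 : ℝ) ^ (j.choose 2) ≤ ∏ i ∈ Finset.range j, ((2 : ℝ) ^ (i + 1) - 1) := by
  induction j with
  | zero => simp
  | succ j ih =>
    rw [Finset.prod_range_succ, Nat.choose_succ_succ' j 1, Nat.choose_one_right, pow_add, mul_comm]
    have h1 : (1 : ℝ) ≤ 2 ^ j := one_le_pow₀ (by norm_num)
    have h2 : (2 : ℝ) ^ j ≤ 2 ^ (j + 1) - 1 := by
      rw [pow_succ]
      linarith
    exact mul_le_mul ih h2 (by positivity) (le_trans (by positivity) ih)

theorem fac_le (j : ℕ) : ∏ i ∈ Finset.range j, ((2 : ℝ) ^ (i + 1) - 1) ≤ 2 ^ ((j + 1).choose 2) := by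
  induction j with
  | zero => simp
  | succ j ih =>
    rw [Finset.prod_range_succ, Nat.choose_succ_succ' (j + 1) 1, Nat.choose_one_right]
    have h1 : (1 : ℝ) ≤ 2 ^ (j + 1) := one_le_pow₀ (by norm_num)
    calc (∏ i ∈ Finset.range j, ((2 : ℝ) ^ (i + 1) - 1)) * (2 ^ (j + 1) - 1) ≤
        2 ^ ((j + 1).choose 2) * 2 ^ (j + 1) :=
          mul_le_mul ih (by linarith) (by linarith) (by positivity)
      _ = 2 ^ (j + 1 + (j + 1).choose (1 + 1)) := by rw [← pow_add, add_comm]

theorem fac_pos (j : ℕ) : 0 < ∏ i ∈ Finset.range j, ((2 : ℝ) ^ (i + 1) - 1) :=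
  lt_of_lt_of_le (by positivity) (fac_ge j)

theorem c_zero : c 0 = Pool.Agent.Y703.CQ.c2 := by
  unfold c
  rw [Finset.range_zero, Finset.prod_empty, div_one]
  rfl

theorem c0_pos : 0 < c 0 := by
  obtain ⟨-, -, -, c1, -⟩ := Pool.Agent.Y948.CQ.t_C2
  rw [c_zero]
  linarith

theorem c0_lt : c 0 < 1 / 2 := by
  obtain ⟨-, -, -, -, c2⟩ := Pool.Agent.Y948.CQ.t_C2
  rw [c_zero]
  linarith

theorem c_eq (j : ℕ) : c j = c 0 / ∏ i ∈ Finset.range j, ((2 : ℝ) ^ (i + 1) - 1) := by
  unfold c
  rw [Finset.range_zero, Finset.prod_empty, div_one]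

theorem c_nonneg (j : ℕ) : 0 ≤ c j := by
  rw [c_eq]
  exact (div_pos c0_pos (fac_pos j)).le

theorem c_le (j : ℕ) : c j ≤ c 0 / 2 ^ (j.choose 2) := by
  rw [c_eq]
  exact div_le_div_of_nonneg_left c0_pos.le (by positivity) (fac_ge j)

theorem c_ge (j : ℕ) : c 0 / 2 ^ ((j + 1).choose 2) ≤ c j := by
  rw [c_eq j]
  exact div_le_div_of_nonneg_left c0_pos.le (fac_pos j) (fac_le j)

theorem tail_eq (j : ℕ) : tail j = ∑' i, c (i + j) := by
  have h := Pool.Agent.U388.GD.t_SUMK
  have h1 := h.summable.sum_add_tsum_nat_add j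
  have h2 : ∑' i, c i = 1 := h.tsum_eq
  have h3 : ∑ i ∈ Finset.range j, c i + ∑' i, c (i + j) = ∑' i, c i := h1
  unfold tail
  linarith

theorem tail_ge (j : ℕ) : c 0 / 2 ^ ((j + 1).choose 2) ≤ tail j := by
  refine (c_ge j).trans ?_
  rw [tail_eq]
  have h : Summable c := Pool.Agent.U388.GD.t_SUMK.summable
  have h1 : Summable fun i => c (i + j) := (summable_nat_add_iff j).2 h
  have h2 := h1.le_tsum 0 fun i _ => c_nonneg (i + j)
  simpa using h2

theorem choose_add (i j : ℕ) (hj : 1 ≤ j) : j.choose 2 + i ≤ (i + j).choose 2 := by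
  induction i with
  | zero => simp
  | succ i ih =>
    rw [show i + 1 + j = (i + j) + 1 by ring, Nat.choose_succ_succ' (i + j) 1, Nat.choose_one_right]
    have e : (i + j).choose (1 + 1) = (i + j).choose 2 := rfl
    omega

theorem tail_le (j : ℕ) : tail j ≤ 1 / 2 ^ (j.choose 2) := by
  rcases Nat.eq_zero_or_pos j with rfl | hj
  · unfold tail
    simp
  rw [tail_eq]
  have h : Summable c := Pool.Agent.U388.GD.t_SUMK.summable
  have h1 : Summable fun i => c (i + j) := (summable_nat_add_iff j).2 h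
  have h2 : HasSum (fun i : ℕ => c 0 / 2 ^ (j.choose 2) * (1 / 2 : ℝ) ^ i)
      (c 0 / 2 ^ (j.choose 2) * 2) := by
    have := hasSum_geometric_two
    exact this.mul_left _
  have h3 : ∀ i, c (i + j) ≤ c 0 / 2 ^ (j.choose 2) * (1 / 2 : ℝ) ^ i := by
    intro i
    refine (c_le (i + j)).trans ?_
    have e : c 0 / 2 ^ (j.choose 2) * (1 / 2 : ℝ) ^ i = c 0 / 2 ^ (j.choose 2 + i) := by
      rw [pow_add, one_div, inv_pow]
      field_simp
    rw [e]
    exact div_le_div_of_nonneg_left c0_pos.le (by positivity)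
      (pow_le_pow_right₀ (by norm_num) (choose_add i j hj))
  refine (h1.tsum_le_tsum h3 h2.summable).trans ?_
  rw [h2.tsum_eq]
  have h4 := c0_lt
  rw [div_mul_eq_mul_div]
  exact div_le_div_of_nonneg_right (by linarith) (by positivity)

theorem num_congr {a b : ℤ} {P Q : ℕ → Prop} (h : ∀ D, Class a b D → (P D ↔ Q D)) (X : ℕ) :
    num a b P X = num a b Q X := by
  unfold num
  refine congrArg Finset.card (Finset.ext fun D => ?_)
  simp only [Finset.mem_filter]
  exact and_congr_right fun _ => and_congr_right fun hD => h D hD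

theorem num_mono {a b : ℤ} {P Q : ℕ → Prop} (h : ∀ D, Class a b D → P D → Q D) (X : ℕ) :
    num a b P X ≤ num a b Q X := by
  unfold num
  refine Finset.card_le_card fun D hD => ?_
  simp only [Finset.mem_filter] at hD ⊢
  exact ⟨hD.1, hD.2.1, h D hD.2.1 hD.2.2⟩

theorem class_one (a b : ℤ) : Class a b 1 := by
  refine ⟨squarefree_one, ⟨rfl, fun l hl hl2 _ => ⟨hl.one_lt.ne' ∘ fun h => Nat.dvd_one.1 h, ?_⟩⟩, ?_⟩
  · rw [Nat.cast_one]
    exact IsSquare.one
  · intro p hp
    rw [Nat.primeFactors_one] at hp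
    exact absurd hp (Finset.notMem_empty _)

theorem num_pos (a b : ℤ) {X : ℕ} (hX : 1 ≤ X) : 0 < num a b (fun _ => True) X := by
  unfold num
  refine Finset.card_pos.2 ⟨1, ?_⟩
  simp only [Finset.mem_filter, Finset.mem_Icc]
  exact ⟨⟨le_rfl, hX⟩, class_one a b, trivial⟩

theorem law {a b : ℤ} (hb : ¬ IsSquare b) (hc : ¬ IsSquare (a ^ 2 - 4 * b)) (j : ℕ) :
    Proportion a b (fun D => k a b D = j) (c j) := by
  refine (Pool.Agent.U115.GE.densK hb hc j).congr fun X => ?_
  unfold num
  refine congrArg₂ (fun a b : ℕ => (a : ℝ) / (b : ℝ)) ?_ ?_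
  · refine congrArg Finset.card (Finset.ext fun D => ?_)
    simp only [Finset.mem_filter]
    rw [class_iff, k_eq]
  · refine congrArg Finset.card (Finset.ext fun D => ?_)
    simp only [Finset.mem_filter, and_true]
    rw [class_iff]

theorem num_split (a b : ℤ) (j X : ℕ) :
    num a b (fun D => j ≤ k a b D) X + ∑ i ∈ Finset.range j, num a b (fun D => k a b D = i) X =
      num a b (fun _ => True) X := by
  induction j with
  | zero =>
    rw [Finset.sum_range_zero, add_zero]
    exact num_congr (fun D _ => by simp) X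
  | succ j ih =>
    rw [Finset.sum_range_succ, ← ih]
    have h : num a b (fun D => j ≤ k a b D) X =
        num a b (fun D => j + 1 ≤ k a b D) X + num a b (fun D => k a b D = j) X := by
      unfold num
      rw [← Finset.card_union_of_disjoint]
      · refine congrArg Finset.card (Finset.ext fun D => ?_)
        simp only [Finset.mem_filter, Finset.mem_union]
        constructor
        · rintro ⟨h1, h2, h3⟩
          rcases Nat.lt_or_ge j (k a b D) with h4 | h4
          · exact Or.inl ⟨h1, h2, h4⟩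
          · exact Or.inr ⟨h1, h2, le_antisymm h4 h3⟩
        · rintro (⟨h1, h2, h3⟩ | ⟨h1, h2, h3⟩)
          · exact ⟨h1, h2, by omega⟩
          · exact ⟨h1, h2, h3.ge⟩
      · rw [Finset.disjoint_left]
        intro D h1 h2
        simp only [Finset.mem_filter] at h1 h2
        omega
    rw [h]
    ring

theorem law_tail {a b : ℤ} (hb : ¬ IsSquare b) (hc : ¬ IsSquare (a ^ 2 - 4 * b)) (j : ℕ) :
    Proportion a b (fun D => j ≤ k a b D) (tail j) := by
  have h1 : Filter.Tendsto (fun X : ℕ => (1 : ℝ) - ∑ i ∈ Finset.range j,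
      (num a b (fun D => k a b D = i) X : ℝ) / (num a b (fun _ => True) X : ℝ)) Filter.atTop
      (nhds (tail j)) :=
    (tendsto_const_nhds).sub (tendsto_finsetSum _ fun i _ => law hb hc i)
  refine h1.congr' ?_
  filter_upwards [Filter.eventually_ge_atTop 1] with X hX
  have h2 := num_pos a b hX
  have h3 : (0 : ℝ) < (num a b (fun _ => True) X : ℝ) := by exact_mod_cast h2
  rw [← Finset.sum_div, eq_div_iff h3.ne', sub_mul, div_mul_cancel₀ _ h3.ne', one_mul]
  have h4 := num_split a b j X
  have h5 : (num a b (fun D => j ≤ k a b D) X : ℝ) +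
      ∑ i ∈ Finset.range j, (num a b (fun D => k a b D = i) X : ℝ) =
      (num a b (fun _ => True) X : ℝ) := by exact_mod_cast h4
  linarith

end proof

/-- **The tails of the `2^∞`-Selmer group.** -/
theorem result (a b : ℤ) (hb : ¬ IsSquare b) (hc : ¬ IsSquare (a ^ 2 - 4 * b)) :
    (∀ D : ℕ, Class a b D → 0 < shaTwo a b D ∧ 2 ^ k a b D ≤ selTwo a b D ∧
      4 * selTwo a b D ≤ 4 ^ k a b D * sels a b) ∧
    (∀ j : ℕ, Proportion a b (fun D => k a b D = j) (c j) ∧
      Proportion a b (fun D => j ≤ k a b D) (tail j)) ∧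
    (∀ (j : ℕ) (ε : ℝ), 0 < ε → ∃ X₀ : ℕ, ∀ X : ℕ, X₀ ≤ X →
      (tail j - ε) * (num a b (fun _ => True) X : ℝ) ≤
        (num a b (fun D => 2 ^ j ≤ selTwo a b D) X : ℝ)) ∧
    (∀ (j : ℕ) (ε : ℝ), 0 < ε → ∃ X₀ : ℕ, ∀ X : ℕ, X₀ ≤ X →
      (num a b (fun D => 4 ^ j * sels a b < 4 * selTwo a b D) X : ℝ) ≤
        (tail (j + 1) + ε) * (num a b (fun _ => True) X : ℝ)) ∧
    (∀ j : ℕ, c 0 / 2 ^ ((j + 1).choose 2) ≤ tail j ∧ tail j ≤ 1 / 2 ^ (j.choose 2)) ∧
    0.4194 < c 0 ∧ c 0 < 0.4195 := by
  have hb0 : b ≠ 0 := by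
    rintro rfl
    exact hb ⟨0, by norm_num⟩
  have hc0 : a ^ 2 - 4 * b ≠ 0 := by
    intro h
    exact hc ⟨0, by rw [h]; norm_num⟩
  have hG := Pool.Agent.U739.GE.t_GOOD
  have hB := Pool.Agent.U796.GE.t_BND
  have key : ∀ D : ℕ, Class a b D → 0 < shaTwo a b D ∧ 2 ^ k a b D ≤ selTwo a b D ∧
      4 * selTwo a b D ≤ 4 ^ k a b D * sels a b := by
    intro D h
    have h' := (class_iff a b D).1 h
    have hH := Pool.Agent.U115.GE.class_hg hb0 hc0 h'
    have hk := Pool.Agent.U115.GE.class_kap hb0 hc0 h'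
    have hD := Pool.Agent.U115.GE.prod_eq (a := a) (b := b) h.1
    obtain ⟨h1, h2⟩ := hH.bound hG hB hD
    have h3 := hH.conv2 hG hB hb hc hD
    rw [hk, ← k_eq] at h2 h3
    refine ⟨?_, h3, ?_⟩
    · unfold shaTwo
      have : Finite {x : Sha (E a b D) // 2 • x = 0} := h1
      have : Nonempty {x : Sha (E a b D) // 2 • x = 0} := ⟨⟨0, smul_zero 2⟩⟩
      exact Nat.card_pos
    · have h4 : 4 * (2 ^ rk (E a b D) * Nat.card {x : Sha (E a b D) // 2 • x = 0}) ≤
          (2 ^ k a b D) ^ 2 * ((Sel a b).ncard * (Sel (-2 * a) (a ^ 2 - 4 * b)).ncard) := by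
        rw [← mul_assoc]
        exact h2
      rw [← pow_mul, mul_comm (k a b D) 2, pow_mul] at h4
      exact h4
  obtain ⟨-, -, -, c1, c2⟩ := Pool.Agent.Y948.CQ.t_C2
  refine ⟨key, fun j => ⟨law hb hc j, law_tail hb hc j⟩, fun j ε hε => ?_, fun j ε hε => ?_,
    fun j => ⟨tail_ge j, tail_le j⟩, by rw [c_zero]; exact c1, by rw [c_zero]; exact c2⟩
  · have h1 := (law_tail hb hc j).eventually (lt_mem_nhds (show tail j - ε < tail j by linarith))
    obtain ⟨X₀, h2⟩ := Filter.eventually_atTop.1 h1
    refine ⟨max X₀ 1, fun X hX => ?_⟩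
    have h3 := h2 X (le_trans (le_max_left _ _) hX)
    have h5 : (0 : ℝ) < (num a b (fun _ => True) X : ℝ) := by
      exact_mod_cast num_pos a b (le_trans (le_max_right _ _) hX)
    refine ((lt_div_iff₀ h5).1 h3).le.trans ?_
    have h6 := num_mono (a := a) (b := b) (P := fun D => j ≤ k a b D)
      (Q := fun D => 2 ^ j ≤ selTwo a b D)
      (fun D hD h => le_trans (Nat.pow_le_pow_right (by norm_num) h) (key D hD).2.1) X
    exact_mod_cast h6
  · have h1 := (law_tail hb hc (j + 1)).eventually
      (gt_mem_nhds (show tail (j + 1) < tail (j + 1) + ε by linarith))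
    obtain ⟨X₀, h2⟩ := Filter.eventually_atTop.1 h1
    refine ⟨max X₀ 1, fun X hX => ?_⟩
    have h3 := h2 X (le_trans (le_max_left _ _) hX)
    have h5 : (0 : ℝ) < (num a b (fun _ => True) X : ℝ) := by
      exact_mod_cast num_pos a b (le_trans (le_max_right _ _) hX)
    refine le_trans ?_ ((div_lt_iff₀ h5).1 h3).le
    have h6 := num_mono (a := a) (b := b) (P := fun D => 4 ^ j * sels a b < 4 * selTwo a b D)
      (Q := fun D => j + 1 ≤ k a b D) (fun D hD h => ?_) X
    · exact_mod_cast h6
    · by_contra h7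
      have h8 : k a b D ≤ j := by omega
      have h9 : 4 ^ k a b D * sels a b ≤ 4 ^ j * sels a b :=
        Nat.mul_le_mul_right _ (Nat.pow_le_pow_right (by norm_num) h8)
      have h10 := (key D hD).2.2
      omega

end Pool.Agent.Results.MP_a3f657_nt.TwoPrimaryTails
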